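import Pool.Agent.Helper18.PB.Defs
import Pool.Agent.Helper63.PropB.BishopPhelps

/-!
# A1: the variational principle of Ekeland on the unit ball from a given point
-/

set_option autoImplicit false

namespace Pool.Agent.Helper90.PB

open Set Metric Filter Topology

universe u

variable {X : Type u} [NormedAddCommGroup X] [NormedSpace ℝ X]

/-- Ekeland type lemma on the unit ball. -/
theorem ekeland_from [CompleteSpace X] (φ : X →L[ℝ] ℝ) {ε : ℝ} (hε : 0 < ε) (x0 : X)
    (hx00 : ‖x0‖ ≤ 1) :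
    ∃ z : X, ‖z‖ ≤ 1 ∧ φ x0 + ε * ‖z - x0‖ ≤ φ z ∧
      ∀ x : X, ‖x‖ ≤ 1 → φ x ≤ φ z + ε * ‖x - z‖ := by
  classical
  let S : X → Set X := fun a => {x | ‖x‖ ≤ 1 ∧ φ a + ε * ‖x - a‖ ≤ φ x}
  have hbdd : ∀ a, BddAbove (φ '' S a) := by
    intro a
    refine ⟨‖φ‖, ?_⟩
    rintro _ ⟨x, hx, rfl⟩
    calc φ x ≤ ‖φ x‖ := le_abs_self _
      _ ≤ ‖φ‖ * ‖x‖ := φ.le_opNorm x
      _ ≤ ‖φ‖ * 1 := by gcongr; exact hx.1
      _ = ‖φ‖ := mul_one _
  have hself : ∀ a, ‖a‖ ≤ 1 → a ∈ S a := fun a ha => ⟨ha, by simp⟩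
  have hsub : ∀ a b, b ∈ S a → S b ⊆ S a := by
    intro a b hb x hx
    refine ⟨hx.1, ?_⟩
    have h1 := hb.2
    have h2 := hx.2
    have h3 : ‖x - a‖ ≤ ‖x - b‖ + ‖b - a‖ := norm_sub_le_norm_sub_add_norm_sub x b a
    nlinarith
  -- choice of the next point
  have hnext : ∀ (a : X) (n : ℕ), ∃ b, ‖a‖ ≤ 1 → b ∈ S a ∧ sSup (φ '' S a) ≤ φ b + (1 / 2) ^ n := by
    intro a n
    by_cases ha : ‖a‖ ≤ 1
    · have hne : (φ '' S a).Nonempty := ⟨φ a, a, hself a ha, rfl⟩
      obtain ⟨_, ⟨b, hb, rfl⟩, hlt⟩ := exists_lt_of_lt_csSup hne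
        (show sSup (φ '' S a) - (1 / 2) ^ n < sSup (φ '' S a) by
          have : (0 : ℝ) < (1 / 2) ^ n := by positivity
          linarith)
      exact ⟨b, fun _ => ⟨hb, by linarith⟩⟩
    · exact ⟨a, fun h => absurd h ha⟩
  choose nxt hnxt using hnext
  let x : ℕ → X := fun n => Nat.rec (x0 : X) (fun k a => nxt a k) n
  have hx0 : x 0 = x0 := rfl
  have hxs : ∀ n, x (n + 1) = nxt (x n) n := fun n => rfl
  have hball : ∀ n, ‖x n‖ ≤ 1 := by
    intro n
    induction n with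
    | zero => rw [hx0]; exact hx00
    | succ k ih => rw [hxs]; exact ((hnxt (x k) k ih).1).1
  have hmem : ∀ n, x (n + 1) ∈ S (x n) := fun n => by
    rw [hxs]; exact (hnxt (x n) n (hball n)).1
  have hsup : ∀ n, sSup (φ '' S (x n)) ≤ φ (x (n + 1)) + (1 / 2) ^ n := fun n => by
    rw [hxs]; exact (hnxt (x n) n (hball n)).2
  -- every point of `S (x (n+1))` is close to `x (n+1)`
  have hclose : ∀ n, ∀ y ∈ S (x (n + 1)), ‖y - x (n + 1)‖ ≤ (1 / 2) ^ n / ε := by
    intro n y hy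
    have h1 : φ y ≤ sSup (φ '' S (x n)) :=
      le_csSup (hbdd _) ⟨y, hsub _ _ (hmem n) hy, rfl⟩
    have h2 := hsup n
    have h3 := hy.2
    rw [le_div_iff₀ hε]
    nlinarith
  have hmono : ∀ n m, n ≤ m → x m ∈ S (x n) := by
    intro n m hnm
    induction m, hnm using Nat.le_induction with
    | base => exact hself _ (hball n)
    | succ m hm ih => exact hsub _ _ ih (hmem m)
  have hcau : CauchySeq x := by
    have h1 : ∀ n m, n + 1 ≤ m → dist (x m) (x (n + 1)) ≤ (1 / 2) ^ n / ε := by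
      intro n m hm
      rw [dist_eq_norm]
      exact hclose n _ (hmono _ _ hm)
    rw [Metric.cauchySeq_iff']
    intro δ hδ
    obtain ⟨n, hn⟩ := exists_pow_lt_of_lt_one (show 0 < δ * ε by positivity)
      (show (1 / 2 : ℝ) < 1 by norm_num)
    refine ⟨n + 1, fun m hm => lt_of_le_of_lt (h1 n m hm) ?_⟩
    rw [div_lt_iff₀ hε]
    exact hn
  obtain ⟨z, hz⟩ := cauchySeq_tendsto_of_complete hcau
  have hzball : ‖z‖ ≤ 1 := le_of_tendsto hz.norm (Eventually.of_forall hball)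
  have hzS : ∀ n, z ∈ S (x n) := by
    intro n
    refine ⟨hzball, ?_⟩
    have h1 : Tendsto (fun m => φ (x n) + ε * ‖x m - x n‖) atTop
        (𝓝 (φ (x n) + ε * ‖z - x n‖)) :=
      ((((hz.sub_const (x n)).norm).const_mul ε).const_add _)
    have h2 : Tendsto (fun m => φ (x m)) atTop (𝓝 (φ z)) := (φ.continuous.tendsto z).comp hz
    refine le_of_tendsto_of_tendsto h1 h2 ?_
    filter_upwards [eventually_ge_atTop n] with m hm
    exact (hmono n m hm).2
  refine ⟨z, hzball, (hzS 0).2, fun y hy => ?_⟩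
  by_contra hcon
  push Not at hcon
  have hyz : y ∈ S z := ⟨hy, hcon.le⟩
  have hyS : ∀ n, y ∈ S (x n) := fun n => hsub _ _ (hzS n) hyz
  have hlim : Tendsto (fun n => x (n + 1)) atTop (𝓝 y) := by
    rw [tendsto_iff_norm_sub_tendsto_zero]
    have h1 : Tendsto (fun n : ℕ => (1 / 2 : ℝ) ^ n / ε) atTop (𝓝 0) := by
      have := (tendsto_pow_atTop_nhds_zero_of_lt_one (show (0 : ℝ) ≤ 1 / 2 by norm_num)
        (show (1 / 2 : ℝ) < 1 by norm_num)).div_const ε
      simpa using this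
    refine squeeze_zero (fun _ => norm_nonneg _) (fun n => ?_) h1
    rw [norm_sub_rev]
    exact hclose n y (hyS (n + 1))
  have : y = z := tendsto_nhds_unique hlim ((tendsto_add_atTop_iff_nat 1).2 hz)
  subst this
  simp at hcon


theorem a1 : Helper18.PB.GA.{u} := by
  intro X _ _ _ φ ε x0 hε hx0
  obtain ⟨z, hz1, hzx, hz⟩ := ekeland_from φ hε x0 hx0
  -- separation in `X × ℝ`
  let s : Set (X × ℝ) := {p | ε * ‖p.1 - z‖ < p.2}
  let t : Set (X × ℝ) := {p | ‖p.1‖ ≤ 1 ∧ p.2 ≤ φ p.1 - φ z}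
  have hs_open : IsOpen s := by
    apply isOpen_lt <;> fun_prop
  have hs_conv : Convex ℝ s := by
    rintro ⟨a, α⟩ ha ⟨b, β⟩ hb p q hp hq hpq
    simp only [s, mem_ofPred_eq, Prod.smul_mk, Prod.mk_add_mk, smul_eq_mul] at ha hb ⊢
    have h1 : p • a + q • b - z = p • (a - z) + q • (b - z) := by
      have : z = (p + q) • z := by rw [hpq, one_smul]
      nth_rewrite 1 [this]
      module
    rw [h1]
    have h2 : ‖p • (a - z) + q • (b - z)‖ ≤ p * ‖a - z‖ + q * ‖b - z‖ := by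
      refine (norm_add_le _ _).trans ?_
      rw [norm_smul, norm_smul, Real.norm_of_nonneg hp, Real.norm_of_nonneg hq]
    rcases eq_or_lt_of_le hp with h | h
    · subst h
      have hq1 : q = 1 := by linarith
      subst hq1
      simpa using hb
    · have h3 : p * (ε * ‖a - z‖) < p * α := mul_lt_mul_of_pos_left ha h
      have h4 : q * (ε * ‖b - z‖) ≤ q * β := mul_le_mul_of_nonneg_left hb.le hq
      nlinarith
  have ht_conv : Convex ℝ t := by
    rintro ⟨a, α⟩ ha ⟨b, β⟩ hb p q hp hq hpq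
    simp only [t, mem_ofPred_eq, Prod.smul_mk, Prod.mk_add_mk, smul_eq_mul] at ha hb ⊢
    refine ⟨?_, ?_⟩
    · refine (norm_add_le _ _).trans ?_
      rw [norm_smul, norm_smul, Real.norm_of_nonneg hp, Real.norm_of_nonneg hq]
      nlinarith [ha.1, hb.1]
    · rw [map_add, map_smul, map_smul, smul_eq_mul, smul_eq_mul]
      have h3 : p * α ≤ p * (φ a - φ z) := mul_le_mul_of_nonneg_left ha.2 hp
      have h4 : q * β ≤ q * (φ b - φ z) := mul_le_mul_of_nonneg_left hb.2 hq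
      have h5 : φ z = p * φ z + q * φ z := by rw [← add_mul, hpq, one_mul]
      nlinarith
  have hdisj : Disjoint s t := by
    rw [Set.disjoint_left]
    rintro ⟨a, α⟩ ha hb
    simp only [s, t, mem_ofPred_eq] at ha hb
    have := hz a hb.1
    linarith [hb.2]
  obtain ⟨f, c, hfs, hft⟩ := geometric_hahn_banach_open hs_conv hs_open ht_conv hdisj
  -- split `f`
  let g : X →L[ℝ] ℝ := f.comp (ContinuousLinearMap.inl ℝ X ℝ)
  let κ : ℝ := f (0, 1)
  have hf : ∀ x r, f (x, r) = g x + r * κ := by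
    intro x r
    have h1 : (x, r) = (x, (0 : ℝ)) + r • ((0 : X), (1 : ℝ)) := by
      simp
    rw [h1, map_add, map_smul, smul_eq_mul]
    rfl
  have hzt : ((z, (0 : ℝ)) : X × ℝ) ∈ t := ⟨hz1, by simp⟩
  have hc1 : c ≤ g z := by
    have := hft _ hzt
    rw [hf] at this
    simpa using this
  have hs1 : ∀ x r, ε * ‖x - z‖ < r → g x + r * κ < c := by
    intro x r hr
    have := hfs (x, r) hr
    rwa [hf] at this
  have hκ : κ < 0 := by
    have := hs1 z 1 (by simp)
    linarith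
  have hs2 : ∀ x, g x + ε * ‖x - z‖ * κ ≤ c := by
    intro x
    by_contra hcon
    push Not at hcon
    -- choose r slightly larger
    obtain ⟨δ, hδ, hδ2⟩ : ∃ δ > 0, δ * (-κ) < g x + ε * ‖x - z‖ * κ - c := by
      refine ⟨(g x + ε * ‖x - z‖ * κ - c) / (2 * (-κ)), ?_, ?_⟩
      · apply div_pos <;> linarith
      · have : (g x + ε * ‖x - z‖ * κ - c) / (2 * (-κ)) * (-κ)
            = (g x + ε * ‖x - z‖ * κ - c) / 2 := by
          have hκ0 : κ ≠ 0 := hκ.ne
          field_simp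
        rw [this]; linarith
    have := hs1 x (ε * ‖x - z‖ + δ) (by linarith)
    nlinarith
  have hc2 : g z ≤ c := by simpa using hs2 z
  have hcz : c = g z := le_antisymm hc1 hc2
  -- the functional
  let G : X →L[ℝ] ℝ := (-κ)⁻¹ • g
  have hGnorm : ‖G‖ ≤ ε := by
    refine G.opNorm_le_bound hε.le (fun x => ?_)
    have key : ∀ v, g v ≤ ε * ‖v‖ * (-κ) := by
      intro v
      have := hs2 (z + v)
      rw [hcz, map_add, add_sub_cancel_left] at this
      linarith
    have h1 := key x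
    have h2 := key (-x)
    rw [map_neg, norm_neg] at h2
    have h3 : |g x| ≤ ε * ‖x‖ * (-κ) := abs_le.2 ⟨by linarith, h1⟩
    rw [Real.norm_eq_abs]
    simp only [G, smul_apply, smul_eq_mul, abs_mul]
    rw [abs_of_pos (inv_pos.2 (by linarith : 0 < -κ)), inv_mul_le_iff₀ (by linarith)]
    linarith
  have hmax : ∀ x, ‖x‖ ≤ 1 → (φ - G) x ≤ (φ - G) z := by
    intro x hx
    have h1 : ((x, φ x - φ z) : X × ℝ) ∈ t := ⟨hx, le_refl _⟩
    have h2 := hft _ h1
    rw [hf, hcz] at h2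
    simp only [sub_apply, G, smul_apply, smul_eq_mul]
    have h3 : g z - g x ≤ (φ x - φ z) * κ := by linarith
    have h4 : φ x - φ z ≤ (-κ)⁻¹ * (g x - g z) := by
      rw [le_inv_mul_iff₀ (by linarith)]
      linarith
    linarith [mul_sub (-κ)⁻¹ (g x) (g z)]
  refine ⟨z, G, hz1, hGnorm, ?_, fun y hy => ?_⟩
  · rw [map_sub]
    linarith
  · rw [map_sub]
    linarith [hmax y hy]

end Pool.Agent.Helper90.PB
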